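import Pool.Agent.Helper45.FG.St

/-!
Project FG, module QRL: one fusion ring for all candidates of a field of degree at most two.
-/

set_option autoImplicit false

namespace Pool.Agent.Helper51.FG

open Pool.Agent.Helper45.FG

private theorem sum3 {J : Type} [Fintype J] [DecidableEq J] (D : J → ℝ) (p q r : J) (a b c : ℕ) :
    ∑ i, (((if i = p then a else 0) + (if i = q then b else 0) + (if i = r then c else 0) : ℕ) : ℝ) * D i =
      a * D p + b * D q + c * D r := by
  have h : ∀ i, (((if i = p then a else 0) + (if i = q then b else 0) + (if i = r then c else 0) : ℕ) : ℝ) * D i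
      = (if i = p then (a : ℝ) * D i else 0) + (if i = q then (b : ℝ) * D i else 0) +
        (if i = r then (c : ℝ) * D i else 0) := by
    intro i
    push_cast
    split_ifs <;> ring
  simp only [h, Finset.sum_add_distrib, Finset.sum_ite_eq', Finset.mem_univ, if_true]

theorem hQRL (hFIN : StFIN) (hNGR : StNGR) (hPRD : StPRD) (hQUA : StQUA) : StQRL := by
  classical
  intro K hK hG hn
  obtain ⟨k, N, ω, δ, hN, hω, hδ, hω2, hδ2, hβ⟩ := hQUA K hK hG hn
  obtain ⟨I, fI, R, d, hd, i1, hi1⟩ := hNGR N k hN ω hω hω2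
  obtain ⟨J, fJ, S, e, he, i2, hi2⟩ := hNGR (k ^ 2 + 4 * N) 0 (by nlinarith) δ hδ (by
    rw [hδ2]; push_cast; ring)
  let := fI
  let := fJ
  obtain ⟨T, _, hT⟩ := hPRD I J R S d e hd he
  have hR := (hFIN I R d hd).1
  have hS := (hFIN J S e he).1
  refine ⟨I × J, inferInstance, T, _, hT, fun β hc => ?_⟩
  obtain ⟨a, b, c, h⟩ := hβ β hc
  refine ⟨fun i => (if i = (R.one, S.one) then a else 0) + (if i = (R.one, i2) then b else 0) +
    (if i = (i1, S.one) then c else 0), ?_⟩
  rw [h]
  refine Eq.trans ?_ (sum3 (fun p : I × J => d p.1 * e p.2) (R.one, S.one) (R.one, i2) (i1, S.one) a b c).symm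
  simp only
  rw [hR, hS, hi1, hi2]
  ring

end Pool.Agent.Helper51.FG
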